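import Pool.Agent.W659.FD.Stm
import Pool.Agent.H341R2.Stepanov

/-!
# FD-UNI
-/

set_option autoImplicit false

namespace Pool.Agent.W249.FD

open Polynomial Pool.Agent.W659.FD

open Classical in
theorem main : S_UNI := by
  intro D
  refine ⟨3 * D, by positivity, ?_⟩
  intro p hpF hp2 f hfD hns
  have hF : ringChar (ZMod p) ≠ 2 := by
    rw [ZMod.ringChar_zmod_n]; omega
  have hf0 : f ≠ 0 := by
    intro h
    refine hns 0 1 ?_
    rw [h]; simp
  have hd : 1 ≤ f.natDegree := by
    by_contra hcon
    have h0 : f.natDegree = 0 := by omega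
    refine hns (f.coeff 0) 1 ?_
    rw [one_pow, mul_one]
    exact Polynomial.eq_C_of_natDegree_eq_zero h0
  have hW := Pool.Agent.H341R2.weil_bound hF f hd hns
  rw [ZMod.card] at hW
  have hD1 : (f.natDegree : ℝ) ≤ D := by exact_mod_cast hfD
  have hsq1 : 1 ≤ Real.sqrt p := by
    rw [show (1 : ℝ) = Real.sqrt 1 by simp]
    apply Real.sqrt_le_sqrt
    have : 1 ≤ p := by omega
    exact_mod_cast this
  -- the number of zeros
  have hroots : (((Finset.univ.filter fun x : ZMod p => f.eval x = 0).card : ℕ) : ℝ) ≤ D := by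
    have h1 : (Finset.univ.filter fun x : ZMod p => f.eval x = 0) ⊆ f.roots.toFinset := by
      intro x hx
      rw [Finset.mem_filter] at hx
      rw [Multiset.mem_toFinset, Polynomial.mem_roots hf0]
      exact hx.2
    have h2 := (Finset.card_le_card h1).trans ((Multiset.toFinset_card_le _).trans
      (Polynomial.card_roots' f))
    have h3 : (Finset.univ.filter fun x : ZMod p => f.eval x = 0).card ≤ D := h2.trans hfD
    exact_mod_cast h3
  have hS : ({x : ZMod p | ∃ w : ZMod p, w ^ 2 = f.eval x}).ncard =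
      (Finset.univ.filter fun x : ZMod p => ∃ w : ZMod p, w ^ 2 = f.eval x).card := by
    rw [← Set.ncard_coe_finset]
    congr 1
    ext x
    simp
  rw [hS, Finset.card_filter]
  rw [Finset.card_filter] at hroots
  push_cast at hroots ⊢
  have hpt : ∀ x : ZMod p, (if ∃ w : ZMod p, w ^ 2 = f.eval x then (1 : ℝ) else 0) ≤
      1 / 2 + (quadraticChar (ZMod p) (f.eval x) : ℝ) / 2 +
        (if f.eval x = 0 then (1 : ℝ) else 0) / 2 := by
    intro x
    by_cases h0 : f.eval x = 0
    · rw [if_pos h0, if_pos ⟨0, by rw [h0]; simp⟩, h0]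
      rw [quadraticChar_zero]
      norm_num
    · rw [if_neg h0]
      by_cases hsq : ∃ w : ZMod p, w ^ 2 = f.eval x
      · rw [if_pos hsq]
        have h1 : quadraticChar (ZMod p) (f.eval x) = 1 := by
          rw [quadraticChar_one_iff_isSquare h0]
          obtain ⟨w, hw⟩ := hsq
          exact ⟨w, by rw [← hw]; ring⟩
        rw [h1]
        norm_num
      · rw [if_neg hsq]
        rcases quadraticChar_dichotomy h0 with h | h <;> rw [h] <;> norm_num
  have hsum := Finset.sum_le_sum fun (x : ZMod p) (_ : x ∈ Finset.univ) => hpt x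
  rw [Finset.sum_add_distrib, Finset.sum_add_distrib, ← Finset.sum_div, ← Finset.sum_div,
    Finset.sum_const, Finset.card_univ, ZMod.card, nsmul_eq_mul] at hsum
  have e3 : (∑ i : ZMod p, (if f.eval i = 0 then (1 : ℝ) else 0)) / 2 ≤ D / 2 := by linarith
  try rw [Finset.sum_div] at e3
  have hW1 := (abs_le.1 hW).2
  have e1 : 5 * (f.natDegree : ℝ) * Real.sqrt p ≤ 5 * D * Real.sqrt p := by
    have := Real.sqrt_nonneg (p : ℝ)
    nlinarith
  have e2 : (D : ℝ) ≤ D * Real.sqrt p := by
    have : (0 : ℝ) ≤ D := Nat.cast_nonneg D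
    nlinarith
  linarith

end Pool.Agent.W249.FD
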